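import Pool.Agent.Helper76.Dim.QT

set_option autoImplicit false

namespace Pool.Agent.Helper76.Dim

/-- every bit followed by `false` -/
def cd : List Bool → List Bool
  | [] => []
  | b :: l => b :: false :: cd l

theorem cd_append (l l' : List Bool) : cd (l ++ l') = cd l ++ cd l' := by
  induction l with
  | nil => rfl
  | cons b l ih => simp [cd, ih]

theorem length_cd (l : List Bool) : (cd l).length = 2 * l.length := by
  induction l with
  | nil => rfl
  | cons b l ih => simp [cd, ih]; omega

theorem cd_rep_inj {l l' : List Bool} {j j' : ℕ}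
    (h : cd l ++ List.replicate j true = cd l' ++ List.replicate j' true) : l = l' ∧ j = j' := by
  induction l generalizing l' with
  | nil =>
    cases l' with
    | nil =>
      have := congrArg List.length h
      simp [cd] at this
      exact ⟨rfl, this⟩
    | cons b l' =>
      exfalso
      simp only [cd, List.nil_append, List.cons_append] at h
      match j, h with
      | 0, h => simp at h
      | 1, h => simp at h
      | j + 2, h => simp [List.replicate_succ] at h
  | cons b l ih =>
    cases l' with
    | nil =>
      exfalso
      simp only [cd, List.nil_append, List.cons_append] at h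
      match j', h with
      | 0, h => simp at h
      | 1, h => simp at h
      | j + 2, h => simp [List.replicate_succ] at h
    | cons b' l' =>
      simp only [cd, List.cons_append, List.cons.injEq, true_and] at h
      obtain ⟨h1, h2⟩ := h
      obtain ⟨h3, h4⟩ := ih h2
      exact ⟨by rw [h1, h3], h4⟩

theorem cd_sep_inj {l l' m m' : List Bool}
    (h : cd l ++ true :: true :: m = cd l' ++ true :: true :: m') : l = l' ∧ m = m' := by
  induction l generalizing l' with
  | nil =>
    cases l' with
    | nil => simpa [cd] using h
    | cons b l' => simp [cd] at h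
  | cons b l ih =>
    cases l' with
    | nil => simp [cd] at h
    | cons b' l' =>
      simp only [cd, List.cons_append, List.cons.injEq, true_and] at h
      obtain ⟨h1, h2⟩ := h
      obtain ⟨h3, h4⟩ := ih h2
      exact ⟨by rw [h1, h3], h4⟩

/-- queries to the table -/
def encT (u : List Bool) (j : ℕ) : List Bool := false :: (cd u ++ List.replicate j true)

/-- queries to the hidden part (`f = true`) and to the clock (`f = false`) -/
def encH (x y : List Bool) (f : Bool) : List Bool := true :: (cd x ++ true :: true :: (y ++ [f]))

theorem encT_inj {u u' : List Bool} {j j' : ℕ} (h : encT u j = encT u' j') : u = u' ∧ j = j' := by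
  simp only [encT, List.cons.injEq, true_and] at h
  exact cd_rep_inj h

theorem encH_inj {x x' y y' : List Bool} {f f' : Bool} (h : encH x y f = encH x' y' f') :
    x = x' ∧ y = y' ∧ f = f' := by
  simp only [encH, List.cons.injEq, true_and] at h
  obtain ⟨h1, h2⟩ := cd_sep_inj h
  have h3 := List.append_inj' h2 (by simp)
  exact ⟨h1, h3.1, by simpa using h3.2⟩

theorem encT_ne_encH {u x y : List Bool} {j : ℕ} {f : Bool} : encT u j ≠ encH x y f := by
  simp [encT, encH]

theorem inp_inj {r r' : ℕ} {w w' : List Bool} (h : inp r w = inp r' w') : r = r' ∧ w = w' := by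
  induction r generalizing r' with
  | zero =>
    cases r' with
    | zero => simpa [inp] using h
    | succ r' => simp [inp, List.replicate_succ] at h
  | succ r ih =>
    cases r' with
    | zero => simp [inp, List.replicate_succ] at h
    | succ r' =>
      have h1 : inp r w = inp r' w' := by simpa [inp, List.replicate_succ] using h
      obtain ⟨h2, h3⟩ := ih h1
      exact ⟨by rw [h2], h3⟩

/-- The different kinds of queries. -/
inductive Kind : Type
  | tab (r : ℕ) (w : List Bool) (j : ℕ) : Kind
  | clk (x y : List Bool) : Kind
  | hid (x y : List Bool) : Kind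
  | other : Kind

open Classical in
/-- the kind of a query -/
noncomputable def kind (z : List Bool) : Kind :=
  if h : ∃ p : ℕ × List Bool × ℕ, z = encT (inp p.1 p.2.1) p.2.2 then
    .tab h.choose.1 h.choose.2.1 h.choose.2.2
  else if h : ∃ p : List Bool × List Bool, z = encH p.1 p.2 false then
    .clk h.choose.1 h.choose.2
  else if h : ∃ p : List Bool × List Bool, z = encH p.1 p.2 true then
    .hid h.choose.1 h.choose.2
  else .other

theorem kind_tab (r : ℕ) (w : List Bool) (j : ℕ) : kind (encT (inp r w) j) = .tab r w j := by
  have h : ∃ p : ℕ × List Bool × ℕ, encT (inp r w) j = encT (inp p.1 p.2.1) p.2.2 :=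
    ⟨(r, w, j), rfl⟩
  rw [kind, dif_pos h]
  obtain ⟨h1, h2⟩ := encT_inj h.choose_spec
  obtain ⟨h3, h4⟩ := inp_inj h1
  rw [← h2, ← h3, ← h4]

theorem kind_clk (x y : List Bool) : kind (encH x y false) = .clk x y := by
  have h0 : ¬ ∃ p : ℕ × List Bool × ℕ, encH x y false = encT (inp p.1 p.2.1) p.2.2 :=
    fun ⟨p, hp⟩ => encT_ne_encH hp.symm
  have h : ∃ p : List Bool × List Bool, encH x y false = encH p.1 p.2 false := ⟨(x, y), rfl⟩
  rw [kind, dif_neg h0, dif_pos h]
  obtain ⟨h1, h2, _⟩ := encH_inj h.choose_spec
  rw [← h1, ← h2]

theorem kind_hid (x y : List Bool) : kind (encH x y true) = .hid x y := by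
  have h0 : ¬ ∃ p : ℕ × List Bool × ℕ, encH x y true = encT (inp p.1 p.2.1) p.2.2 :=
    fun ⟨p, hp⟩ => encT_ne_encH hp.symm
  have h1 : ¬ ∃ p : List Bool × List Bool, encH x y true = encH p.1 p.2 false :=
    fun ⟨p, hp⟩ => by simpa using (encH_inj hp).2.2
  have h : ∃ p : List Bool × List Bool, encH x y true = encH p.1 p.2 true := ⟨(x, y), rfl⟩
  rw [kind, dif_neg h0, dif_neg h1, dif_pos h]
  obtain ⟨h1, h2, _⟩ := encH_inj h.choose_spec
  rw [← h1, ← h2]

theorem of_kind_tab {z : List Bool} {r : ℕ} {w : List Bool} {j : ℕ} (h : kind z = .tab r w j) :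
    z = encT (inp r w) j := by
  rw [kind] at h
  split_ifs at h with h1 h2 h3
  simp only [Kind.tab.injEq] at h
  have := h1.choose_spec
  rwa [h.1, h.2.1, h.2.2] at this

theorem of_kind_clk {z x y : List Bool} (h : kind z = .clk x y) : z = encH x y false := by
  rw [kind] at h
  split_ifs at h with h1 h2 h3
  simp only [Kind.clk.injEq] at h
  have := h2.choose_spec
  rwa [h.1, h.2] at this

theorem of_kind_hid {z x y : List Bool} (h : kind z = .hid x y) : z = encH x y true := by
  rw [kind] at h
  split_ifs at h with h1 h2 h3
  simp only [Kind.hid.injEq] at h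
  have := h3.choose_spec
  rwa [h.1, h.2] at this

theorem length_lt_of_tab {z : List Bool} {r : ℕ} {w : List Bool} {j : ℕ}
    (h : kind z = .tab r w j) : w.length < z.length := by
  rw [of_kind_tab h]
  simp [encT, inp, length_cd]
  omega

theorem length_lt_of_hid {z x y : List Bool} (h : kind z = .hid x y) : x.length < z.length := by
  rw [of_kind_hid h]
  simp [encH, length_cd]
  omega

/-! ### The code of rational numbers -/

theorem length_dbl (l : List Bool) : (dbl l).length = 2 * l.length := by
  induction l with
  | nil => rfl
  | cons b l ih => simp [dbl, ih]; omega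

theorem dbl_sep_inj {l l' m m' : List Bool}
    (h : dbl l ++ false :: true :: m = dbl l' ++ false :: true :: m') : l = l' ∧ m = m' := by
  induction l generalizing l' with
  | nil =>
    cases l' with
    | nil => simpa [dbl] using h
    | cons b l' => cases b <;> simp [dbl] at h
  | cons b l ih =>
    cases l' with
    | nil => cases b <;> simp [dbl] at h
    | cons b' l' =>
      simp only [dbl, List.cons_append, List.cons.injEq] at h
      obtain ⟨h1, _, h2⟩ := h
      obtain ⟨h3, h4⟩ := ih h2
      exact ⟨by rw [h1, h3], h4⟩

theorem foldr_bits (m : ℕ) : m.bits.foldr Nat.bit 0 = m := by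
  induction m using Nat.binaryRec' with
  | zero => simp
  | bit b m h ih => rw [Nat.bits_append_bit _ _ h, List.foldr_cons, ih]

theorem bits_injective : Function.Injective Nat.bits := fun a b h => by
  rw [← foldr_bits a, ← foldr_bits b, h]

theorem ratCode_injective : Function.Injective ratCode := by
  intro p q h
  simp only [ratCode, List.cons.injEq, decide_eq_decide] at h
  obtain ⟨h1, h2⟩ := h
  obtain ⟨h3, h4⟩ := dbl_sep_inj h2
  have h5 : p.num.natAbs = q.num.natAbs := bits_injective h3
  have h6 : p.den = q.den := bits_injective h4
  rw [← Rat.num_neg, ← Rat.num_neg] at h1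
  refine Rat.ext ?_ h6
  omega

theorem length_ratCode (q : ℚ) :
    (ratCode q).length = 2 * q.num.natAbs.size + q.den.size + 3 := by
  simp only [ratCode, List.length_cons, List.length_append, length_dbl, Nat.size_eq_bits_len]
  omega

end Pool.Agent.Helper76.Dim
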