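import Mathlib

/-!
# Oracle Turing machines, `NP` relative to an oracle, and relativized polynomial-time dimension

Machines have an input tape (tape `0`), a query tape (tape `1`), an output tape (tape `2`) and any
number of work tapes. All tapes are infinite to the right, their cells are numbered `0, 1, 2, …`,
and a machine may read and write on each of them. The tape symbols are the blank symbol, the two
bits and finitely many further symbols. The states are numbered; six of them are special.
-/

set_option autoImplicit false

namespace Pool.Agent.Helper76.Dim

/-- Tape symbols: `none` is the blank symbol, `some (Sum.inl b)` is the bit `b`, and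
`some (Sum.inr i)` is one of the `g` further symbols. -/
abbrev Sym (g : ℕ) : Type := Option (Bool ⊕ Fin g)

/-- Movements of a head. -/
inductive Dir : Type
  | left
  | stay
  | right
  deriving DecidableEq

/-- The new position of a head; a head on cell `0` cannot move left. -/
def Dir.move : Dir → ℕ → ℕ
  | .left, h => h - 1
  | .stay, h => h
  | .right, h => h + 1

/-- States of a machine with `n` ordinary states. State `0` is the initial state, state `1` is the
query state, states `2` and `3` are the states entered after the answers yes and no of the oracle,
state `4` is the accepting (halting) state and state `5` the rejecting (halting) state. -/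
abbrev St (n : ℕ) : Type := Fin (n + 6)

/-- An action of a machine with `k` work tapes, `g` further symbols and `n` ordinary states: a new
state, and for each tape the symbol that is written and the movement of the head. -/
abbrev Action (k g n : ℕ) : Type := St n × (Fin (k + 3) → Sym g × Dir)

/-- Configurations: the state, the contents of the tapes and the positions of the heads. -/
@[ext] structure Cfg (k g n : ℕ) : Type where
  /-- the current state -/
  state : St n
  /-- the contents of the tapes -/
  tape : Fin (k + 3) → ℕ → Sym g
  /-- the positions of the heads -/
  head : Fin (k + 3) → ℕ

variable {k g n : ℕ}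

/-- The symbols under the heads. -/
def Cfg.read (c : Cfg k g n) : Fin (k + 3) → Sym g := fun i => c.tape i (c.head i)

/-- The configuration after an action. -/
def Cfg.act (c : Cfg k g n) (a : Action k g n) : Cfg k g n where
  state := a.1
  tape := fun i => Function.update (c.tape i) (c.head i) (a.2 i).1
  head := fun i => (a.2 i).2.move (c.head i)

/-- The initial configuration with input `x`: the input is written on tape `0`, starting at cell
`0`, all other cells are blank, all heads are on cell `0`. -/
def Cfg.init (k g n : ℕ) (x : List Bool) : Cfg k g n where
  state := 0
  tape := fun i j => if i = 0 then x[j]?.map Sum.inl else none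
  head := fun _ => 0

/-- The bit in a cell (`false` if the cell does not contain a bit). -/
def bitOf : Sym g → Bool
  | some (Sum.inl b) => b
  | _ => false

/-- The word on a tape: the bits in the cells to the left of the first cell which does not contain
a bit. -/
noncomputable def word (t : ℕ → Sym g) : List Bool :=
  (List.range (sInf {j | ∀ b : Bool, t j ≠ some (Sum.inl b)})).map fun j => bitOf (t j)

open Classical in
/-- The configuration after a query to the oracle `A`: the word on the query tape is asked. -/
noncomputable def Cfg.ask (A : Set (List Bool)) (c : Cfg k g n) : Cfg k g n :=
  { c with state := if word (c.tape 1) ∈ A then 2 else 3 }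

/-! ### Nondeterministic machines and `NP` -/

/-- A nondeterministic oracle Turing machine: for each state and each choice of symbols under the
heads a (finite) set of possible actions. -/
structure NTM : Type where
  /-- the number of work tapes -/
  k : ℕ
  /-- the number of further tape symbols -/
  g : ℕ
  /-- the number of ordinary states -/
  n : ℕ
  /-- the possible actions -/
  δ : St n → (Fin (k + 3) → Sym g) → Set (Action k g n)

/-- `c'` is a possible next configuration after `c`. There is none if `c` is in a halting state. -/
def NTM.Step (M : NTM) (A : Set (List Bool)) (c c' : Cfg M.k M.g M.n) : Prop :=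
  c.state ≠ 4 ∧ c.state ≠ 5 ∧
    (c.state = 1 → c' = c.ask A) ∧ (c.state ≠ 1 → ∃ a ∈ M.δ c.state c.read, c' = c.act a)

/-- There is a computation of exactly `m` steps on input `x`, with oracle `A`, which leads to the
configuration `c`. -/
def NTM.Reach (M : NTM) (A : Set (List Bool)) (x : List Bool) : ℕ → Cfg M.k M.g M.n → Prop
  | 0, c => c = Cfg.init M.k M.g M.n x
  | m + 1, c => ∃ c', M.Reach A x m c' ∧ M.Step A c' c

/-- The machine accepts `x`: some computation leads to the accepting state. -/
def NTM.Accepts (M : NTM) (A : Set (List Bool)) (x : List Bool) : Prop :=
  ∃ m c, M.Reach A x m c ∧ c.state = 4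

/-- `NP` relative to the oracle `A`: the languages decided by nondeterministic oracle machines all
of whose computations on inputs `x` have at most `p(|x|)` steps, for a polynomial `p`. -/
def NP (A : Set (List Bool)) : Set (Set (List Bool)) :=
  {L | ∃ (M : NTM) (p : Polynomial ℕ), (∀ x m c, M.Reach A x m c → m ≤ p.eval x.length) ∧
    ∀ x, x ∈ L ↔ M.Accepts A x}

/-! ### Deterministic machines -/

/-- A deterministic oracle Turing machine. -/
structure DTM : Type where
  /-- the number of work tapes -/
  k : ℕ
  /-- the number of further tape symbols -/
  g : ℕ
  /-- the number of ordinary states -/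
  n : ℕ
  /-- the next action -/
  δ : St n → (Fin (k + 3) → Sym g) → Action k g n

/-- The next configuration; a halting configuration is not changed. -/
noncomputable def DTM.step (M : DTM) (A : Set (List Bool)) (c : Cfg M.k M.g M.n) :
    Cfg M.k M.g M.n :=
  if c.state = 4 ∨ c.state = 5 then c else if c.state = 1 then c.ask A
    else c.act (M.δ c.state c.read)

/-- On input `x` and with oracle `A`, the machine reaches state `4` within `T` steps, and then `y`
is the word on the output tape. -/
def DTM.Outputs (M : DTM) (A : Set (List Bool)) (x : List Bool) (T : ℕ) (y : List Bool) : Prop :=
  ∃ m ≤ T, ((M.step A)^[m] (Cfg.init M.k M.g M.n x)).state = 4 ∧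
    word (((M.step A)^[m] (Cfg.init M.k M.g M.n x)).tape 2) = y

/-- Write every bit twice. -/
def dbl : List Bool → List Bool
  | [] => []
  | b :: l => b :: b :: dbl l

/-- The code of a rational number: the sign, the binary digits (each of them written twice) of the
numerator, the separator `01` and the binary digits of the denominator (in lowest terms). -/
def ratCode (q : ℚ) : List Bool :=
  decide (q < 0) :: (dbl q.num.natAbs.bits ++ false :: true :: q.den.bits)

/-- The input consisting of a precision `r`, written in unary, and of a string `w`. -/
def inp (r : ℕ) (w : List Bool) : List Bool := List.replicate r true ++ false :: w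

/-- The function `d` is computable in polynomial time relative to `A`: a deterministic oracle
machine computes, for all `r` and `w`, in time polynomial in `r + |w|` (the code of) a rational
number whose distance from `d w` is at most `2 ^ (-r)`. -/
def PComputable (A : Set (List Bool)) (d : List Bool → ℝ) : Prop :=
  ∃ (M : DTM) (p : Polynomial ℕ) (f : ℕ → List Bool → ℚ),
    (∀ r w, |(f r w : ℝ) - d w| ≤ 2 ^ (-(r : ℝ))) ∧
      ∀ r w, M.Outputs A (inp r w) (p.eval (r + w.length)) (ratCode (f r w))

/-! ### Gales and dimension -/

/-- An `s`-gale. -/
def IsGale (s : ℝ) (d : List Bool → ℝ) : Prop :=
  (∀ w, 0 ≤ d w) ∧ ∀ w, d w = 2 ^ (-s) * (d (w ++ [false]) + d (w ++ [true]))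

/-- The strings in the standard order: `λ, 0, 1, 00, 01, 10, 11, 000, …`. The string number `m` is
obtained from the binary expansion of `m + 1` by deleting the leading digit `1`. -/
def str : ℕ → List Bool
  | 0 => []
  | m + 1 => str (m / 2) ++ [decide (m % 2 = 1)]
decreasing_by omega

open Classical in
/-- The characteristic sequence of a language. -/
noncomputable def chi (L : Set (List Bool)) (m : ℕ) : Bool := decide (str m ∈ L)

/-- The initial segment of length `m` of a sequence. -/
def initSeg (X : ℕ → Bool) (m : ℕ) : List Bool := (List.range m).map X

/-- `d` succeeds on the sequence `X`: the upper limit of `d` along the initial segments of `X` is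
infinite. -/
def Succeeds (d : List Bool → ℝ) (X : ℕ → Bool) : Prop :=
  ∀ (C : ℝ) (m : ℕ), ∃ m' ≥ m, C < d (initSeg X m')

/-- The polynomial-time dimension, relative to the oracle `A`, of a class of languages. -/
noncomputable def dimP (A : Set (List Bool)) (C : Set (Set (List Bool))) : ℝ :=
  sInf {s : ℝ | 0 ≤ s ∧ ∃ d, IsGale s d ∧ PComputable A d ∧ ∀ L ∈ C, Succeeds d (chi L)}

end Pool.Agent.Helper76.Dim
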