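import Pool.Agent.Helper76.Dim.Code

set_option autoImplicit false

namespace Pool.Agent.Helper76.Dim

open MeasureTheory

/-! ### The probability space -/

/-- The probability space: the bit number `(i, 0)` decides whether the string number `i` is in the
hidden language, the bits `(i, 1), (i, 2), …` form the witness for it. -/
abbrev Om : Type := ℕ × ℕ → Bool

/-- the fair coin -/
noncomputable def coin : Measure Bool :=
  (2⁻¹ : ENNReal) • Measure.dirac true + (2⁻¹ : ENNReal) • Measure.dirac false

instance : IsProbabilityMeasure coin := ⟨by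
  simp [coin, ENNReal.inv_two_add_inv_two]⟩

theorem coin_singleton (b : Bool) : coin {b} = 2⁻¹ := by
  cases b <;> simp [coin]

/-- independent fair coins -/
noncomputable def mu : Measure Om := Measure.infinitePi fun _ => coin

instance : IsProbabilityMeasure mu := by
  unfold mu
  infer_instance

theorem mu_cyl (C : Finset (ℕ × ℕ)) (g : ℕ × ℕ → Bool) :
    mu.real {ω | ∀ c ∈ C, ω c = g c} = (1 / 2) ^ C.card := by
  have h : {ω : Om | ∀ c ∈ C, ω c = g c} = Set.pi (C : Set (ℕ × ℕ)) fun c => {g c} := by
    ext ω
    simp [Set.mem_pi]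
  rw [h, mu, Measure.real, Measure.infinitePi_pi _ (fun _ _ => MeasurableSet.of_discrete)]
  simp [coin_singleton]

/-- the event depends only on the coordinates in `C` -/
def Dep (C : Finset (ℕ × ℕ)) (S : Set Om) : Prop :=
  ∀ ω ω' : Om, (∀ c ∈ C, ω c = ω' c) → (ω ∈ S ↔ ω' ∈ S)

theorem Dep.measurable {C : Finset (ℕ × ℕ)} {S : Set Om} (h : Dep C S) : MeasurableSet S := by
  have h1 : S = (C.restrict : Om → _) ⁻¹' ((C.restrict : Om → _) '' S) := by
    ext ω
    constructor
    · exact fun hω => ⟨ω, hω, rfl⟩
    · rintro ⟨ω', h2, h3⟩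
      refine (h ω' ω fun c hc => ?_).1 h2
      have := congrFun h3 ⟨c, hc⟩
      exact this
  rw [h1]
  exact (Finset.measurable_restrict C) (Set.toFinite _).measurableSet

/-! ### Machines assigned to the scales -/

instance : Nonempty NTM := ⟨⟨0, 0, 0, fun _ _ => ∅⟩⟩

instance : Countable (Polynomial ℕ) := by
  rw [← Cardinal.mk_le_aleph0_iff]
  exact Polynomial.cardinalMk_le_max.trans (by simp)

theorem exists_mach : ∃ f : ℕ → NTM × Polynomial ℕ, Function.Surjective f :=
  exists_surjective_nat _

/-- an enumeration of all machines with polynomials -/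
noncomputable def mach : ℕ → NTM × Polynomial ℕ := exists_mach.choose

theorem mach_surj : Function.Surjective mach := exists_mach.choose_spec

/-- the time bound for scale `t` -/
noncomputable def tb (t m : ℕ) : ℕ := (mach t.unpair.1).2.eval m

/-- The language treated at scale `t`, relative to `A`. -/
def LL (t : ℕ) (A : Set (List Bool)) : Set (List Bool) :=
  {x | tb t t ≤ 2 ^ t ∧ tb t (t + 1) ≤ 2 ^ t ∧ (mach t.unpair.1).1.AccIn A (tb t x.length) x}

/-- number of bits of advice at scale `t` -/
def hh (t : ℕ) : ℕ := 2 ^ t / 128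

open Classical in
/-- the key of scale `t`: the characteristic sequence of the language on the strings of length
`t` -/
noncomputable def key (A : Set (List Bool)) (t : ℕ) : List Bool :=
  (List.range (2 ^ t)).map fun i => decide (str (2 ^ t - 1 + i) ∈ LL t A)

open Classical in
/-- the advice of scale `t`: the characteristic sequence of the language on the first strings of
length `t + 1` -/
noncomputable def adv (A : Set (List Bool)) (t : ℕ) : List Bool :=
  (List.range (hh t)).map fun i => decide (str (2 ^ (t + 1) - 1 + i) ∈ LL t A)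

/-- the part of `w` corresponding to the strings of length `t` -/
def por (t : ℕ) (w : List Bool) : List Bool := (w.drop (2 ^ t - 1)).take (2 ^ t)

/-- the part of `w` corresponding to the first strings of length `t + 1` -/
def tai (t : ℕ) (w : List Bool) : List Bool := (w.drop (2 ^ (t + 1) - 1)).take (hh t)

/-- families of oracles -/
abbrev Fam : Type := Om → Set (List Bool)

/-- the probability that the key of scale `t` starts with `u` -/
noncomputable def pr (F : Fam) (t : ℕ) (u : List Bool) : ℝ := mu.real {ω | u <+: key (F ω) t}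

/-- the martingale of the distribution of the key -/
noncomputable def aa (F : Fam) (t : ℕ) (w : List Bool) : ℝ :=
  2 ^ (por t w).length * pr F t (por t w)

/-- `κ` is an improbable key -/
def Imp (F : Fam) (t : ℕ) (κ : List Bool) : Prop :=
  mu.real {ω | key (F ω) t = κ} < (1 / 2) ^ (2 ^ (t - 1))

open Classical in
/-- the martingale given by the advice (if there is one) -/
noncomputable def bb (β : Option (List Bool)) (t : ℕ) (w : List Bool) : ℝ :=
  match β with
  | none => 1
  | some α => if tai t w <+: α then 2 ^ (tai t w).length else 0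

/-- the total martingale -/
noncomputable def MM (F : Fam) (β : ℕ → Option (List Bool)) (w : List Bool) : ℝ :=
  ∑ t ∈ Finset.range (w.length + 1), (1 / 2) ^ (t + 1) * ((aa F t w + bb (β t) t w) / 2) +
    (1 / 2) ^ (w.length + 1)

/-- the number `s` -/
noncomputable def ss : ℝ := 1 - 1 / 1024

/-- the gale -/
noncomputable def dd (F : Fam) (β : ℕ → Option (List Bool)) (w : List Bool) : ℝ :=
  (2 : ℝ) ^ ((ss - 1) * w.length) * MM F β w

open Classical in
/-- the advice which is unlocked at `w` -/
noncomputable def unl (F : Fam) (ω : Om) (w : List Bool) (t : ℕ) : Option (List Bool) :=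
  if por t w = key (F ω) t ∧ Imp F t (por t w) then some (adv (F ω) t) else none

/-- rational approximation -/
noncomputable def apx (r : ℕ) (v : ℝ) : ℚ := (⌊v * 2 ^ r⌋ : ℚ) / 2 ^ r

/-- the word which is stored for the input `r`, `w` -/
noncomputable def out (F : Fam) (β : ℕ → Option (List Bool)) (r : ℕ) (w : List Bool) :
    List Bool := ratCode (apx r (dd F β w))

/-- how the word `o` is stored -/
def Bit (o : List Bool) (j : ℕ) : Prop :=
  ∃ i, (j = 2 * i + 1 ∧ i < o.length) ∨ (j = 2 * i + 2 ∧ o[i]? = some true)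

/-- The oracle with the unlocked advice given by `β` and the hidden part given by `H`. -/
def gen (F : Fam) (β : List Bool → ℕ → Option (List Bool)) (H : List Bool → List Bool → Prop) :
    Set (List Bool) :=
  {z | match kind z with
    | .tab r w j => Bit (out F (β w) r w) j
    | .clk x y => y.length < x.length ^ 2
    | .hid x y => H x y
    | .other => False}

/-- membership in the hidden language -/
def Rb (ω : Om) (x : List Bool) : Bool := ω (idx x, 0)

/-- the witness for `x` -/
def wit (ω : Om) (x : List Bool) : List Bool :=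
  (List.range (x.length ^ 2)).map fun j => ω (idx x, j + 1)

/-- the hidden part of the oracle -/
def Hid (ω : Om) (x y : List Bool) : Prop := Rb ω x = true ∧ y = wit ω x

/-- One step of the recursion. -/
noncomputable def FF (F : Fam) : Fam := fun ω => gen F (unl F ω) (Hid ω)

/-- the approximations -/
noncomputable def Aux : ℕ → Fam
  | 0 => fun _ => ∅
  | m + 1 => FF (Aux m)

/-- The oracles. -/
noncomputable def Or : Fam := fun ω => {z | z ∈ Aux (z.length + 1) ω}

/-! ### Locality -/

/-- the sets agree on the strings of length less than `l` -/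
def Agree (l : ℕ) (A B : Set (List Bool)) : Prop := ∀ z : List Bool, z.length < l → (z ∈ A ↔ z ∈ B)

theorem Agree.mono {l l' : ℕ} {A B : Set (List Bool)} (h : Agree l A B) (hl : l' ≤ l) :
    Agree l' A B := fun z hz => h z (hz.trans_le hl)

theorem Agree.symm {l : ℕ} {A B : Set (List Bool)} (h : Agree l A B) : Agree l B A :=
  fun z hz => (h z hz).symm

theorem mem_LL_congr {t : ℕ} {A B : Set (List Bool)} (h : Agree (2 ^ t) A B) {x : List Bool}
    (hx : x.length = t ∨ x.length = t + 1) : x ∈ LL t A ↔ x ∈ LL t B := by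
  simp only [LL, Set.mem_ofPred_eq]
  refine and_congr_right fun h1 => and_congr_right fun h2 => ?_
  refine (mach t.unpair.1).1.accIn_congr x fun z hz => h z (hz.trans_le ?_)
  rcases hx with hx | hx <;> rw [hx] <;> assumption

theorem length_key (A : Set (List Bool)) (t : ℕ) : (key A t).length = 2 ^ t := by simp [key]

theorem length_adv (A : Set (List Bool)) (t : ℕ) : (adv A t).length = hh t := by simp [adv]

theorem hh_le (t : ℕ) : hh t ≤ 2 ^ t := Nat.div_le_self _ _

theorem len_key {t i : ℕ} (hi : i < 2 ^ t) : (str (2 ^ t - 1 + i)).length = t := by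
  have h1 : 1 ≤ 2 ^ t := Nat.one_le_two_pow
  exact length_str_eq (by omega) (by rw [pow_succ]; omega)

theorem len_adv {t i : ℕ} (hi : i < hh t) : (str (2 ^ (t + 1) - 1 + i)).length = t + 1 := by
  have h1 := hh_le t
  exact len_key (by rw [pow_succ]; omega)

theorem key_congr {t : ℕ} {A B : Set (List Bool)} (h : Agree (2 ^ t) A B) :
    key A t = key B t := by
  refine List.map_congr_left fun i hi => ?_
  rw [List.mem_range] at hi
  exact decide_eq_decide.2 (mem_LL_congr h (Or.inl (len_key hi)))

theorem adv_congr {t : ℕ} {A B : Set (List Bool)} (h : Agree (2 ^ t) A B) :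
    adv A t = adv B t := by
  refine List.map_congr_left fun i hi => ?_
  rw [List.mem_range] at hi
  exact decide_eq_decide.2 (mem_LL_congr h (Or.inr (len_adv hi)))

theorem por_short {t : ℕ} {w : List Bool} (h : w.length < 2 ^ t) : por t w = [] := by
  rw [por, List.drop_of_length_le (by omega), List.take_nil]

theorem pr_nil (F : Fam) (t : ℕ) : pr F t [] = 1 := by
  simp [pr]

theorem aa_short (F : Fam) {t : ℕ} {w : List Bool} (h : w.length < 2 ^ t) : aa F t w = 1 := by
  rw [aa, por_short h, pr_nil]
  simp

theorem unl_short (F : Fam) (ω : Om) {t : ℕ} {w : List Bool} (h : w.length < 2 ^ t) :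
    unl F ω w t = none := by
  rw [unl, if_neg]
  rintro ⟨h1, _⟩
  have h2 := congrArg List.length h1
  rw [por_short h, length_key] at h2
  have h3 : 1 ≤ 2 ^ t := Nat.one_le_two_pow
  simp only [List.length_nil] at h2
  omega

/-- agreement of families -/
def AgreeF (l : ℕ) (F G : Fam) : Prop := ∀ ω, Agree l (F ω) (G ω)

theorem AgreeF.mono {l l' : ℕ} {F G : Fam} (h : AgreeF l F G) (hl : l' ≤ l) : AgreeF l' F G :=
  fun ω => (h ω).mono hl

theorem pr_congr {t : ℕ} {F G : Fam} (h : AgreeF (2 ^ t) F G) (u : List Bool) :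
    pr F t u = pr G t u := by
  rw [pr, pr]
  congr 1
  ext ω
  rw [Set.mem_ofPred_eq, Set.mem_ofPred_eq, key_congr (h ω)]

theorem imp_congr {t : ℕ} {F G : Fam} (h : AgreeF (2 ^ t) F G) : Imp F t = Imp G t := by
  funext u
  have h1 : {ω | key (F ω) t = u} = {ω | key (G ω) t = u} := by
    ext ω
    rw [Set.mem_ofPred_eq, Set.mem_ofPred_eq, key_congr (h ω)]
  rw [Imp, Imp, h1]

theorem aa_congr {l : ℕ} {F G : Fam} (h : AgreeF l F G) {w : List Bool} (hw : w.length ≤ l)
    (t : ℕ) : aa F t w = aa G t w := by
  by_cases ht : w.length < 2 ^ t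
  · rw [aa_short F ht, aa_short G ht]
  · rw [aa, aa, pr_congr (h.mono (by omega))]

theorem unl_congr {l : ℕ} {F G : Fam} (h : AgreeF l F G) {w : List Bool} (hw : w.length ≤ l)
    (ω : Om) : unl F ω w = unl G ω w := by
  funext t
  by_cases ht : w.length < 2 ^ t
  · rw [unl_short F ω ht, unl_short G ω ht]
  · have h1 : AgreeF (2 ^ t) F G := h.mono (by omega)
    rw [unl, unl, key_congr (h1 ω), adv_congr (h1 ω), imp_congr h1]

theorem MM_congr {l : ℕ} {F G : Fam} (h : AgreeF l F G) {w : List Bool} (hw : w.length ≤ l)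
    (β : ℕ → Option (List Bool)) : MM F β w = MM G β w := by
  rw [MM, MM]
  congr 1
  exact Finset.sum_congr rfl fun t _ => by rw [aa_congr h hw]

theorem out_congr {l : ℕ} {F G : Fam} (h : AgreeF l F G) {w : List Bool} (hw : w.length ≤ l)
    (β : ℕ → Option (List Bool)) (r : ℕ) : out F β r w = out G β r w := by
  rw [out, out, dd, dd, MM_congr h hw]

theorem mem_gen_tab {F : Fam} {β : List Bool → ℕ → Option (List Bool)}
    {H : List Bool → List Bool → Prop} {z : List Bool} {r : ℕ} {w : List Bool} {j : ℕ}
    (hk : kind z = .tab r w j) : z ∈ gen F β H ↔ Bit (out F (β w) r w) j := by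
  simp only [gen, Set.mem_ofPred_eq, hk]

theorem mem_gen_clk {F : Fam} {β : List Bool → ℕ → Option (List Bool)}
    {H : List Bool → List Bool → Prop} {z x y : List Bool}
    (hk : kind z = .clk x y) : z ∈ gen F β H ↔ y.length < x.length ^ 2 := by
  simp only [gen, Set.mem_ofPred_eq, hk]

theorem mem_gen_hid {F : Fam} {β : List Bool → ℕ → Option (List Bool)}
    {H : List Bool → List Bool → Prop} {z x y : List Bool}
    (hk : kind z = .hid x y) : z ∈ gen F β H ↔ H x y := by
  simp only [gen, Set.mem_ofPred_eq, hk]

theorem mem_gen_other {F : Fam} {β : List Bool → ℕ → Option (List Bool)}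
    {H : List Bool → List Bool → Prop} {z : List Bool}
    (hk : kind z = .other) : z ∉ gen F β H := by
  simp only [gen, Set.mem_ofPred_eq, hk, not_false_eq_true]

theorem FF_agree {l : ℕ} {F G : Fam} (h : AgreeF l F G) : AgreeF (l + 1) (FF F) (FF G) := by
  intro ω z hz
  show z ∈ gen F (unl F ω) (Hid ω) ↔ z ∈ gen G (unl G ω) (Hid ω)
  cases hk : kind z with
  | tab r w j =>
    have h1 := length_lt_of_tab hk
    have h2 : w.length ≤ l := by omega
    rw [mem_gen_tab hk, mem_gen_tab hk, unl_congr h h2, out_congr h h2]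
  | clk x y => rw [mem_gen_clk hk, mem_gen_clk hk]
  | hid x y => rw [mem_gen_hid hk, mem_gen_hid hk]
  | other => exact iff_of_false (mem_gen_other hk) (mem_gen_other hk)

theorem Aux_agree (m : ℕ) : AgreeF m (Aux m) (Aux (m + 1)) := by
  induction m with
  | zero => exact fun ω z hz => absurd hz (Nat.not_lt_zero _)
  | succ m ih => exact FF_agree ih

theorem Aux_agree' (m j : ℕ) : AgreeF m (Aux m) (Aux (m + j)) := by
  induction j with
  | zero => exact fun ω z _ => Iff.rfl
  | succ j ih =>
    intro ω z hz
    exact (ih ω z hz).trans (Aux_agree (m + j) ω z (hz.trans_le (Nat.le_add_right _ _)))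

theorem mem_Or_def {ω : Om} {z : List Bool} : z ∈ Or ω ↔ z ∈ Aux (z.length + 1) ω := by
  rw [Or, Set.mem_ofPred_eq]

theorem Or_agree (m : ℕ) : AgreeF m Or (Aux m) := by
  intro ω z hz
  obtain ⟨j, hj⟩ : ∃ j, m = z.length + 1 + j := ⟨m - (z.length + 1), by omega⟩
  have h1 := Aux_agree' (z.length + 1) j ω z (Nat.lt_succ_self _)
  rw [hj, mem_Or_def]
  exact h1

/-- The fixed point equation. -/
theorem Or_eq : Or = FF Or := by
  funext ω
  ext z
  have h1 := Or_agree (z.length + 1) ω z (Nat.lt_succ_self _)
  have h2 := FF_agree (Or_agree z.length) ω z (Nat.lt_succ_self _)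
  rw [h1, h2, Aux]

theorem mem_Or {ω : Om} {z : List Bool} : z ∈ Or ω ↔ z ∈ gen Or (unl Or ω) (Hid ω) := by
  conv_lhs => rw [Or_eq]
  rfl

/-! ### Dependence on finitely many coordinates -/

/-- the coordinates relevant for strings of length less than `l` -/
def CC (l : ℕ) : Finset (ℕ × ℕ) := Finset.range (2 ^ l) ×ˢ Finset.range (l ^ 2 + 1)

theorem Rb_dep {l : ℕ} {x : List Bool} (hx : x.length < l) {ω ω' : Om}
    (h : ∀ c ∈ CC l, ω c = ω' c) : Rb ω x = Rb ω' x := by
  refine h _ ?_
  simp only [CC, Finset.mem_product, Finset.mem_range]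
  have h1 := idx_lt x
  have h2 : 2 ^ (x.length + 1) ≤ 2 ^ l := Nat.pow_le_pow_right (by norm_num) hx
  constructor
  · omega
  · positivity

theorem wit_dep {l : ℕ} {x : List Bool} (hx : x.length < l) {ω ω' : Om}
    (h : ∀ c ∈ CC l, ω c = ω' c) : wit ω x = wit ω' x := by
  refine List.map_congr_left fun j hj => h _ ?_
  rw [List.mem_range] at hj
  simp only [CC, Finset.mem_product, Finset.mem_range]
  have h1 := idx_lt x
  have h2 : 2 ^ (x.length + 1) ≤ 2 ^ l := Nat.pow_le_pow_right (by norm_num) hx
  have h3 : x.length ^ 2 ≤ l ^ 2 := Nat.pow_le_pow_left hx.le 2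
  constructor
  · omega
  · omega

theorem CC_mono {l l' : ℕ} (h : l ≤ l') : CC l ⊆ CC l' := by
  refine Finset.product_subset_product ?_ ?_
  · exact Finset.range_mono (Nat.pow_le_pow_right (by norm_num) h)
  · exact Finset.range_mono (Nat.succ_le_succ (Nat.pow_le_pow_left h 2))

theorem Or_dep (l : ℕ) {ω ω' : Om} (h : ∀ c ∈ CC l, ω c = ω' c) : Agree l (Or ω) (Or ω') := by
  induction l with
  | zero => exact fun z hz => absurd hz (Nat.not_lt_zero _)
  | succ l ih =>
    have ih' := ih fun c hc => h c (CC_mono (Nat.le_succ l) hc)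
    intro z hz
    rw [mem_Or, mem_Or]
    cases hk : kind z with
    | tab r w j =>
      have h1 := length_lt_of_tab hk
      have h2 : unl Or ω w = unl Or ω' w := by
        funext t
        by_cases ht : w.length < 2 ^ t
        · rw [unl_short Or ω ht, unl_short Or ω' ht]
        · have h3 : Agree (2 ^ t) (Or ω) (Or ω') := ih'.mono (by omega)
          rw [unl, unl, key_congr h3, adv_congr h3]
      rw [mem_gen_tab hk, mem_gen_tab hk, h2]
    | clk x y => rw [mem_gen_clk hk, mem_gen_clk hk]
    | hid x y =>
      have h1 := length_lt_of_hid hk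
      have h2 : x.length < l + 1 := by omega
      rw [mem_gen_hid hk, mem_gen_hid hk, Hid, Hid, Rb_dep h2 h, wit_dep h2 h]
    | other => exact iff_of_false (mem_gen_other hk) (mem_gen_other hk)

theorem measurable_key (t : ℕ) (P : List Bool → Prop) :
    MeasurableSet {ω | P (key (Or ω) t)} := by
  refine Dep.measurable (C := CC (2 ^ t)) fun ω ω' h => ?_
  rw [Set.mem_ofPred_eq, Set.mem_ofPred_eq, key_congr (Or_dep (2 ^ t) h)]

end Pool.Agent.Helper76.Dim
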