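import Pool.Agent.Helper76.Dim.Tape

set_option autoImplicit false

namespace Pool.Agent.Helper76.Dim

/-- Decision trees: finite adaptive sequences of queries. -/
inductive QT (β : Type) : Type
  | ret (b : β) : QT β
  | ask (z : List Bool) (f : Bool → QT β) : QT β

/-- Histories: queries and answers. -/
abbrev Hist : Type := List (List Bool × Bool)

/-- Rules for answering queries, depending on the history. -/
abbrev Ans : Type := Hist → List Bool → Bool

variable {β γ : Type}

/-- Run a decision tree. -/
def QT.run (ans : Ans) : QT β → Hist → β × Hist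
  | .ret b, h => (b, h)
  | .ask z f, h => (f (ans h z)).run ans (h ++ [(z, ans h z)])

def QT.map (φ : β → γ) : QT β → QT γ
  | .ret b => .ret (φ b)
  | .ask z f => .ask z fun b => (f b).map φ

theorem QT.run_map (φ : β → γ) (ans : Ans) (t : QT β) (h : Hist) :
    (t.map φ).run ans h = (φ (t.run ans h).1, (t.run ans h).2) := by
  induction t generalizing h with
  | ret b => rfl
  | ask z f ih => exact ih _ _

/-- at most `T` queries -/
def QT.Bdd : QT β → ℕ → Prop
  | .ret _, _ => True
  | .ask _ _, 0 => False
  | .ask _ f, T + 1 => ∀ b, (f b).Bdd T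

theorem QT.Bdd.map {t : QT β} {T : ℕ} (h : t.Bdd T) (φ : β → γ) : (t.map φ).Bdd T := by
  induction t generalizing T with
  | ret b => trivial
  | ask z f ih =>
    cases T with
    | zero => exact h
    | succ T => exact fun b => ih b (h b)

theorem QT.Bdd.mono {t : QT β} {T T' : ℕ} (h : t.Bdd T) (hT : T ≤ T') : t.Bdd T' := by
  induction t generalizing T T' with
  | ret b => trivial
  | ask z f ih =>
    cases T with
    | zero => exact h.elim
    | succ T =>
      obtain ⟨T', rfl⟩ : ∃ T'', T' = T'' + 1 := ⟨T' - 1, by omega⟩
      exact fun b => ih b (h b) (by omega)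

theorem QT.run_hist (ans : Ans) (t : QT β) (h : Hist) : h <+: (t.run ans h).2 := by
  induction t generalizing h with
  | ret b => exact List.prefix_rfl
  | ask z f ih => exact (List.prefix_append _ _).trans (ih _ _)

theorem QT.run_length (ans : Ans) (t : QT β) (h : Hist) {T : ℕ} (hT : t.Bdd T) :
    (t.run ans h).2.length ≤ h.length + T := by
  induction t generalizing h T with
  | ret b => exact Nat.le_add_right _ _
  | ask z f ih =>
    cases T with
    | zero => exact hT.elim
    | succ T =>
      have h1 := ih (ans h z) (h ++ [(z, ans h z)]) (hT _)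
      simp only [List.length_append, List.length_singleton] at h1
      show ((f (ans h z)).run ans (h ++ [(z, ans h z)])).2.length ≤ _
      omega

/-- The history agrees with the rule. -/
def Cons (ans : Ans) (H : Hist) : Prop :=
  ∀ h1 z b h2, H = h1 ++ (z, b) :: h2 → ans h1 z = b

theorem Cons.mono {ans : Ans} {H H' : Hist} (h : Cons ans H) (hp : H' <+: H) : Cons ans H' := by
  intro h1 z b h2 e
  obtain ⟨l, hl⟩ := hp
  exact h h1 z b (h2 ++ l) (by rw [← hl, e]; simp)

theorem QT.run_congr {ans ans' : Ans} (t : QT β) (h : Hist) (hc : Cons ans' (t.run ans h).2) :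
    t.run ans' h = t.run ans h := by
  induction t generalizing h with
  | ret b => rfl
  | ask z f ih =>
    have h1 : ans' h z = ans h z := by
      obtain ⟨l, hl⟩ := (f (ans h z)).run_hist ans (h ++ [(z, ans h z)])
      exact hc h z _ l (by
        show ((f (ans h z)).run ans (h ++ [(z, ans h z)])).2 = _
        rw [← hl]; simp)
    show (f (ans' h z)).run ans' (h ++ [(z, ans' h z)]) = _
    rw [h1]
    exact ih _ _ hc

/-- The history of a run agrees with the rule from the beginning of the run on. -/
theorem QT.run_cons {ans : Ans} (t : QT β) (h : Hist) (hc : Cons ans h) :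
    Cons ans (t.run ans h).2 := by
  induction t generalizing h with
  | ret b => exact hc
  | ask z f ih =>
    refine ih _ _ ?_
    intro h1 z' b h2 e
    rcases List.eq_nil_or_concat h2 with rfl | ⟨h2, c, rfl⟩
    · have h3 := List.append_inj' e (by simp)
      obtain ⟨rfl, h4⟩ := h3
      simp only [List.cons.injEq, Prod.mk.injEq, and_true] at h4
      obtain ⟨rfl, h5⟩ := h4
      exact h5
    · have h3 : h ++ [(z, ans h z)] = (h1 ++ (z', b) :: h2) ++ [c] := by rw [e]; simp
      have h4 := List.append_inj' h3 (by simp)
      exact hc h1 z' b h2 h4.1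

/-! ### Machines as decision trees -/

open Classical in
/-- The rule given by an oracle. -/
noncomputable def orA (A : Set (List Bool)) : Ans := fun _ z => decide (z ∈ A)

/-- The result shown by a configuration. -/
noncomputable def DTM.fin (M : DTM) (c : Cfg M.k M.g M.n) : Option (List Bool) :=
  if c.state = 4 then some (word (c.tape 2)) else none

/-- `T` steps of a deterministic machine as a decision tree. -/
noncomputable def DTM.qt (M : DTM) : ℕ → Cfg M.k M.g M.n → QT (Option (List Bool))
  | 0, c => .ret (M.fin c)
  | T + 1, c =>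
    if c.state = 4 ∨ c.state = 5 then .ret (M.fin c) else
      if c.state = 1 then
        .ask (word (c.tape 1)) fun b => M.qt T { c with state := if b = true then 2 else 3 }
      else M.qt T (c.act (M.δ c.state c.read))

variable (M : DTM)

theorem DTM.qt_bdd (T : ℕ) (c : Cfg M.k M.g M.n) : (M.qt T c).Bdd T := by
  induction T generalizing c with
  | zero => trivial
  | succ T ih =>
    rw [DTM.qt]
    split_ifs with h1 h2
    · trivial
    · exact fun b => ih _
    · exact (ih _).mono (Nat.le_succ T)

theorem DTM.step_halt (A : Set (List Bool)) {c : Cfg M.k M.g M.n}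
    (h : c.state = 4 ∨ c.state = 5) (m : ℕ) : (M.step A)^[m] c = c := by
  induction m with
  | zero => rfl
  | succ m ih => rw [Function.iterate_succ_apply', ih, DTM.step, if_pos h]

theorem DTM.qt_run (A : Set (List Bool)) (T : ℕ) (c : Cfg M.k M.g M.n) (h : Hist) :
    ((M.qt T c).run (orA A) h).1 = M.fin ((M.step A)^[T] c) := by
  induction T generalizing c h with
  | zero => rfl
  | succ T ih =>
    rw [DTM.qt]
    split_ifs with h1 h2
    · rw [M.step_halt A h1]
      rfl
    · rw [Function.iterate_succ_apply, DTM.step, if_neg h1, if_pos h2]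
      show ((M.qt T _).run (orA A) _).1 = _
      rw [ih]
      congr 2
      by_cases hw : word (c.tape 1) ∈ A
      · simp only [Cfg.ask, orA, hw, decide_true, if_true]
      · simp only [Cfg.ask, orA, hw, decide_false, Bool.false_eq_true, if_false]
    · rw [Function.iterate_succ_apply, DTM.step, if_neg h1, if_neg h2]
      exact ih _ _

theorem DTM.qt_of_outputs {A : Set (List Bool)} {x y : List Bool} {T : ℕ}
    (h : M.Outputs A x T y) (hh : Hist) :
    ((M.qt T (Cfg.init M.k M.g M.n x)).run (orA A) hh).1 = some y := by
  obtain ⟨m, hm, h1, h2⟩ := h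
  rw [DTM.qt_run]
  obtain ⟨j, rfl⟩ := Nat.exists_eq_add_of_le hm
  rw [Nat.add_comm m j, Function.iterate_add_apply, M.step_halt A (Or.inl h1), DTM.fin, if_pos h1,
    h2]

end Pool.Agent.Helper76.Dim
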