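import Pool.Agent.Helper76.Dim.GaleM

set_option autoImplicit false

namespace Pool.Agent.Helper76.Dim

/-- a configuration with three tapes; the head of tape 2 is on cell `0` -/
def cg {n : ℕ} (q : St n) (u : List Bool) (h0 : ℕ) (l : List Bool) (h1 : ℕ) (o : List Bool) :
    Cfg 0 0 n where
  state := q
  tape := ![tp u, tp l, tp o]
  head := ![h0, h1, 0]

section

variable {n : ℕ} (q : St n) (u : List Bool) (h0 : ℕ) (l : List Bool) (h1 : ℕ) (o : List Bool)

theorem cg_state : (cg q u h0 l h1 o).state = q := rfl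

theorem cg_tape1 : (cg q u h0 l h1 o).tape 1 = tp l := rfl

theorem cg_read0 : (cg q u h0 l h1 o).read 0 = tp u h0 := rfl

theorem cg_read1 : (cg q u h0 l h1 o).read 1 = tp l h1 := rfl

theorem cg_read2 : (cg q u h0 l h1 o).read 2 = tp o 0 := rfl

theorem cg_act {q' : St n} {l' o' : List Bool} {s1 s2 : Sym 0} {d0 d1 : Dir}
    (e1 : Function.update (tp l) h1 s1 = tp l') (e2 : Function.update (tp o) 0 s2 = tp o') :
    (cg q u h0 l h1 o).act (act3 q' (tp u h0) s1 s2 d0 d1 .stay) =
      cg q' u (d0.move h0) l' (d1.move h1) o' := by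
  refine cfg_ext3 rfl ?_ ?_ ?_ rfl rfl rfl
  · exact Function.update_eq_self _ _
  · exact e1
  · exact e2

end

theorem cg_ask_yes {n : ℕ} {A : Set (List Bool)} {q : St n} {u : List Bool} {h0 : ℕ}
    {l : List Bool} {h1 : ℕ} {o : List Bool} (h : l ∈ A) :
    (cg q u h0 l h1 o).ask A = cg 2 u h0 l h1 o := by
  have hw : word ((cg q u h0 l h1 o).tape 1) ∈ A := by
    rw [cg_tape1, word_tp]
    exact h
  simp only [Cfg.ask, if_pos hw]
  rfl

theorem cg_ask_no {n : ℕ} {A : Set (List Bool)} {q : St n} {u : List Bool} {h0 : ℕ}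
    {l : List Bool} {h1 : ℕ} {o : List Bool} (h : l ∉ A) :
    (cg q u h0 l h1 o).ask A = cg 3 u h0 l h1 o := by
  have hw : word ((cg q u h0 l h1 o).tape 1) ∉ A := by
    rw [cg_tape1, word_tp]
    exact h
  simp only [Cfg.ask, if_neg hw]
  rfl

/-- copying -/
def r6 (s : Fin 3 → Sym 0) : Action 0 0 4 :=
  match s 0 with
  | some (Sum.inl b) => act3 7 (s 0) (bt b) (s 2) .stay .right .stay
  | _ => act3 8 (s 0) (bt true) (s 2) .stay .right .stay

/-- after the answer yes -/
def r2 (s : Fin 3 → Sym 0) : Set (Action 0 0 4) :=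
  match s 2 with
  | some _ => {act3 4 (s 0) (s 1) (s 2) .stay .stay .stay}
  | none => {act3 9 (s 0) (bt false) (s 2) .stay .right .stay,
      act3 9 (s 0) (bt true) (s 2) .stay .right .stay}

/-- after the answer no -/
def r3 (s : Fin 3 → Sym 0) : Action 0 0 4 :=
  match s 2 with
  | some _ => act3 5 (s 0) (s 1) (s 2) .stay .stay .stay
  | none => act3 1 (s 0) (bt true) (bt true) .stay .stay .stay

/-- the transition function -/
def dR (q : St 4) (s : Fin 3 → Sym 0) : Set (Action 0 0 4) :=
  match q.1 with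
  | 0 => {act3 6 (s 0) (bt true) (s 2) .stay .right .stay}
  | 2 => r2 s
  | 3 => {r3 s}
  | 6 => {r6 s}
  | 7 => {act3 6 (s 0) (bt false) (s 2) .right .right .stay}
  | 8 => {act3 9 (s 0) (bt true) (s 2) .stay .right .stay}
  | 9 => {act3 1 (s 0) (bt false) (s 2) .stay .stay .stay}
  | _ => ∅

/-- The machine which guesses a witness for its input. -/
def MR : NTM := ⟨0, 0, 4, dR⟩

/-- the step relation given by a transition function -/
def SR (A : Set (List Bool)) (c c' : Cfg 0 0 4) : Prop :=
  c.state ≠ 4 ∧ c.state ≠ 5 ∧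
    (c.state = 1 → c' = c.ask A) ∧ (c.state ≠ 1 → ∃ a ∈ dR c.state c.read, c' = c.act a)

theorem MR_step {A : Set (List Bool)} {c c' : Cfg 0 0 4} : MR.Step A c c' ↔ SR A c c' := Iff.rfl

/-- what is written in front of the witness -/
def pre (x : List Bool) : List Bool := true :: (cd x ++ [true, true])

theorem encH_eq (x y : List Bool) (f : Bool) : encH x y f = (pre x ++ y) ++ [f] := by
  simp [encH, pre]

/-- The possible configurations after `m` steps. -/
inductive Fm (A : Set (List Bool)) (x : List Bool) : ℕ → Cfg 0 0 4 → Prop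
  | f0 : Fm A x 0 (cg 0 x 0 [] 0 [])
  | f6 (i : ℕ) (hi : i ≤ x.length) : Fm A x (1 + 2 * i)
      (cg 6 x i (true :: cd (x.take i)) (true :: cd (x.take i)).length [])
  | f7 (i : ℕ) (hi : i < x.length) : Fm A x (2 + 2 * i)
      (cg 7 x i (true :: cd (x.take i) ++ [x[i]]) (true :: cd (x.take i) ++ [x[i]]).length [])
  | f8 : Fm A x (2 * x.length + 2)
      (cg 8 x x.length (true :: cd x ++ [true]) (true :: cd x ++ [true]).length [])
  | f9 (y : List Bool) (hy : y.length ≤ x.length ^ 2) : Fm A x (2 * x.length + 3 + 3 * y.length)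
      (cg 9 x x.length (pre x ++ y) (pre x ++ y).length [])
  | f1 (y : List Bool) (hy : y.length ≤ x.length ^ 2) : Fm A x (2 * x.length + 4 + 3 * y.length)
      (cg 1 x x.length (pre x ++ y ++ [false]) (pre x ++ y).length [])
  | f2 (y : List Bool) (hy : y.length < x.length ^ 2) : Fm A x (2 * x.length + 5 + 3 * y.length)
      (cg 2 x x.length (pre x ++ y ++ [false]) (pre x ++ y).length [])
  | f3 (y : List Bool) (hy : y.length = x.length ^ 2) : Fm A x (2 * x.length + 5 + 3 * y.length)
      (cg 3 x x.length (pre x ++ y ++ [false]) (pre x ++ y).length [])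
  | g1 (y : List Bool) (hy : y.length = x.length ^ 2) : Fm A x (2 * x.length + 6 + 3 * y.length)
      (cg 1 x x.length (pre x ++ y ++ [true]) (pre x ++ y).length [true])
  | g2 (y : List Bool) (hy : y.length = x.length ^ 2) (h : encH x y true ∈ A) :
      Fm A x (2 * x.length + 7 + 3 * y.length)
      (cg 2 x x.length (pre x ++ y ++ [true]) (pre x ++ y).length [true])
  | g3 (y : List Bool) (hy : y.length = x.length ^ 2) :
      Fm A x (2 * x.length + 7 + 3 * y.length)
      (cg 3 x x.length (pre x ++ y ++ [true]) (pre x ++ y).length [true])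
  | h4 (y : List Bool) (hy : y.length = x.length ^ 2) (h : encH x y true ∈ A) :
      Fm A x (2 * x.length + 8 + 3 * y.length)
      (cg 4 x x.length (pre x ++ y ++ [true]) (pre x ++ y).length [true])
  | h5 (y : List Bool) (hy : y.length = x.length ^ 2) :
      Fm A x (2 * x.length + 8 + 3 * y.length)
      (cg 5 x x.length (pre x ++ y ++ [true]) (pre x ++ y).length [true])

theorem Fm.bound {A : Set (List Bool)} {x : List Bool} {m : ℕ} {c : Cfg 0 0 4}
    (h : Fm A x m c) : m ≤ 3 * x.length ^ 2 + 2 * x.length + 8 := by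
  cases h <;> nlinarith

theorem Fm.accept {A : Set (List Bool)} {x : List Bool} {m : ℕ} {c : Cfg 0 0 4}
    (h : Fm A x m c) (h4 : c.state = 4) : ∃ y, encH x y true ∈ A := by
  cases h with
  | h4 y hy h => exact ⟨y, h⟩
  | _ => simp [cg_state, Fin.ext_iff] at h4

theorem upd_end {l : List Bool} (b : Bool) :
    Function.update (tp l : ℕ → Sym 0) l.length (bt b) = tp (l ++ [b]) := update_tp l b

theorem upd_flag {l : List Bool} (b b' : Bool) :
    Function.update (tp (l ++ [b]) : ℕ → Sym 0) l.length (bt b') = tp (l ++ [b']) :=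
  update_tp' l b b'

theorem upd_same (l : List Bool) (h : ℕ) :
    Function.update (tp l : ℕ → Sym 0) h (tp l h) = tp l := Function.update_eq_self _ _

section steps

variable {A : Set (List Bool)} {x : List Bool}

theorem act_f0 (x : List Bool) : (cg (0 : St 4) x 0 [] 0 []).act
    (act3 6 (tp x 0) (bt true) (tp [] 0) .stay .right .stay) = cg 6 x 0 [true] 1 [] :=
  cg_act _ _ _ _ _ _ (upd_end true) (upd_same _ _)

theorem act_f6 (x : List Bool) {i : ℕ} (hi : i < x.length) :
    (cg (6 : St 4) x i (true :: cd (x.take i)) (true :: cd (x.take i)).length []).act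
      (r6 (cg (6 : St 4) x i (true :: cd (x.take i)) (true :: cd (x.take i)).length []).read) =
    cg 7 x i (true :: cd (x.take i) ++ [x[i]]) (true :: cd (x.take i) ++ [x[i]]).length [] := by
  rw [r6, cg_read0, cg_read2, tp_get x hi]
  simp only []
  rw [← tp_get x hi, cg_act _ _ _ _ _ _ (upd_end x[i]) (upd_same _ _)]
  simp [Dir.move]

theorem act_f6' (x : List Bool) :
    (cg (6 : St 4) x x.length (true :: cd x) (true :: cd x).length []).act
      (r6 (cg (6 : St 4) x x.length (true :: cd x) (true :: cd x).length []).read) =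
    cg 8 x x.length (true :: cd x ++ [true]) (true :: cd x ++ [true]).length [] := by
  rw [r6, cg_read0, cg_read2, tp_length x]
  simp only []
  rw [← tp_length x, cg_act _ _ _ _ _ _ (upd_end true) (upd_same _ _)]
  simp [Dir.move]

theorem act_f7 (x : List Bool) {i : ℕ} (hi : i < x.length) :
    (cg (7 : St 4) x i (true :: cd (x.take i) ++ [x[i]])
      (true :: cd (x.take i) ++ [x[i]]).length []).act
      (act3 6 (tp x i) (bt false) (tp [] 0) .right .right .stay) =
    cg 6 x (i + 1) (true :: cd (x.take (i + 1))) (true :: cd (x.take (i + 1))).length [] := by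
  have e : true :: cd (x.take (i + 1)) = (true :: cd (x.take i) ++ [x[i]]) ++ [false] := by
    rw [List.take_succ_eq_append_getElem hi, cd_append]
    simp [cd]
  rw [cg_act _ _ _ _ _ _ (upd_end false) (upd_same _ _), e]
  simp [Dir.move]

theorem act_f8 (x : List Bool) :
    (cg (8 : St 4) x x.length (true :: cd x ++ [true]) (true :: cd x ++ [true]).length []).act
      (act3 9 (tp x x.length) (bt true) (tp [] 0) .stay .right .stay) =
    cg 9 x x.length (pre x ++ []) (pre x ++ []).length [] := by
  have e : pre x ++ [] = (true :: cd x ++ [true]) ++ [true] := by simp [pre]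
  rw [cg_act _ _ _ _ _ _ (upd_end true) (upd_same _ _), e]
  simp [Dir.move]

theorem act_f9 (x y : List Bool) :
    (cg (9 : St 4) x x.length (pre x ++ y) (pre x ++ y).length []).act
      (act3 1 (tp x x.length) (bt false) (tp [] 0) .stay .stay .stay) =
    cg 1 x x.length (pre x ++ y ++ [false]) (pre x ++ y).length [] := by
  rw [cg_act _ _ _ _ _ _ (upd_end false) (upd_same _ _)]
  rfl

theorem act_f2 (x y : List Bool) (b : Bool) :
    (cg (2 : St 4) x x.length (pre x ++ y ++ [false]) (pre x ++ y).length []).act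
      (act3 9 (tp x x.length) (bt b) (tp [] 0) .stay .right .stay) =
    cg 9 x x.length (pre x ++ (y ++ [b])) (pre x ++ (y ++ [b])).length [] := by
  have e : pre x ++ (y ++ [b]) = pre x ++ y ++ [b] := by simp
  rw [cg_act _ _ _ _ _ _ (upd_flag false b) (upd_same _ _), e]
  simp [Dir.move, add_assoc]

theorem act_f3 (x y : List Bool) :
    (cg (3 : St 4) x x.length (pre x ++ y ++ [false]) (pre x ++ y).length []).act
      (act3 1 (tp x x.length) (bt true) (bt true) .stay .stay .stay) =
    cg 1 x x.length (pre x ++ y ++ [true]) (pre x ++ y).length [true] := by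
  rw [cg_act _ _ _ _ _ _ (upd_flag false true) (upd_end (l := []) true)]
  rfl

theorem act_g2 (x y : List Bool) (q : St 4) :
    (cg q x x.length (pre x ++ y ++ [true]) (pre x ++ y).length [true]).act
      (act3 4 (tp x x.length) (tp (pre x ++ y ++ [true]) (pre x ++ y).length) (tp [true] 0)
        .stay .stay .stay) =
    cg 4 x x.length (pre x ++ y ++ [true]) (pre x ++ y).length [true] := by
  rw [cg_act _ _ _ _ _ _ (upd_same _ _) (upd_same _ _)]
  rfl

theorem act_g3 (x y : List Bool) (q : St 4) :
    (cg q x x.length (pre x ++ y ++ [true]) (pre x ++ y).length [true]).act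
      (act3 5 (tp x x.length) (tp (pre x ++ y ++ [true]) (pre x ++ y).length) (tp [true] 0)
        .stay .stay .stay) =
    cg 5 x x.length (pre x ++ y ++ [true]) (pre x ++ y).length [true] := by
  rw [cg_act _ _ _ _ _ _ (upd_same _ _) (upd_same _ _)]
  rfl

theorem tp_one : (tp [true] : ℕ → Sym 0) 0 = bt true := rfl

theorem tp_nil0 : (tp [] : ℕ → Sym 0) 0 = none := rfl

/-- One step from a possible configuration. -/
theorem Fm.step (hclk : ∀ y : List Bool, encH x y false ∈ A ↔ y.length < x.length ^ 2)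
    {m : ℕ} {c c' : Cfg 0 0 4} (h : Fm A x m c) (hs : SR A c c') : Fm A x (m + 1) c' := by
  obtain ⟨s4, s5, s1, s0⟩ := hs
  cases h with
  | f0 =>
    obtain ⟨a, ha, rfl⟩ := s0 (by simp [cg_state])
    have ha' : a = act3 6 (tp x 0) (bt true) (tp [] 0) .stay .right .stay := ha
    rw [ha', act_f0]
    exact Fm.f6 0 (Nat.zero_le _)
  | f6 i hi =>
    obtain ⟨a, ha, rfl⟩ := s0 (by simp [cg_state, Fin.ext_iff])
    have ha' : a = r6 _ := ha
    rw [ha']
    rcases lt_or_eq_of_le hi with h1 | h1
    · rw [act_f6 x h1, show 1 + 2 * i + 1 = 2 + 2 * i by ring]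
      exact Fm.f7 i h1
    · subst h1
      rw [List.take_length, act_f6' x, show 1 + 2 * x.length + 1 = 2 * x.length + 2 by ring]
      exact Fm.f8
  | f7 i hi =>
    obtain ⟨a, ha, rfl⟩ := s0 (by simp [cg_state, Fin.ext_iff])
    have ha' : a = act3 6 (tp x i) (bt false) (tp [] 0) .right .right .stay := ha
    rw [ha', act_f7 x hi, show 2 + 2 * i + 1 = 1 + 2 * (i + 1) by ring]
    exact Fm.f6 (i + 1) hi
  | f8 =>
    obtain ⟨a, ha, rfl⟩ := s0 (by simp [cg_state, Fin.ext_iff])
    have ha' : a = act3 9 (tp x x.length) (bt true) (tp [] 0) .stay .right .stay := ha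
    rw [ha', act_f8 x]
    exact Fm.f9 [] (Nat.zero_le _)
  | f9 y hy =>
    obtain ⟨a, ha, rfl⟩ := s0 (by simp [cg_state, Fin.ext_iff])
    have ha' : a = act3 1 (tp x x.length) (bt false) (tp [] 0) .stay .stay .stay := ha
    rw [ha', act_f9 x, show 2 * x.length + 3 + 3 * y.length + 1 =
      2 * x.length + 4 + 3 * y.length by ring]
    exact Fm.f1 y hy
  | f1 y hy =>
    rw [s1 rfl, show 2 * x.length + 4 + 3 * y.length + 1 = 2 * x.length + 5 + 3 * y.length by ring]
    rcases lt_or_eq_of_le hy with h1 | h1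
    · rw [cg_ask_yes (by rw [← encH_eq]; exact (hclk y).2 h1)]
      exact Fm.f2 y h1
    · rw [cg_ask_no (by rw [← encH_eq]; exact fun h2 => absurd ((hclk y).1 h2) (by omega))]
      exact Fm.f3 y h1
  | f2 y hy =>
    obtain ⟨a, ha, rfl⟩ := s0 (by simp [cg_state, Fin.ext_iff])
    have ha' : a = act3 9 (tp x x.length) (bt false) (tp [] 0) .stay .right .stay ∨
      a = act3 9 (tp x x.length) (bt true) (tp [] 0) .stay .right .stay := ha
    have key : ∀ b : Bool, Fm A x (2 * x.length + 5 + 3 * y.length + 1)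
        (cg 9 x x.length (pre x ++ (y ++ [b])) (pre x ++ (y ++ [b])).length []) := by
      intro b
      have h1 := Fm.f9 (A := A) (x := x) (y ++ [b]) (by simp; omega)
      have e : 2 * x.length + 3 + 3 * (y ++ [b]).length =
          2 * x.length + 5 + 3 * y.length + 1 := by simp; ring
      rwa [e] at h1
    rcases ha' with ha' | ha'
    · rw [ha', act_f2]
      exact key false
    · rw [ha', act_f2]
      exact key true
  | f3 y hy =>
    obtain ⟨a, ha, rfl⟩ := s0 (by simp [cg_state, Fin.ext_iff])
    have ha' : a = act3 1 (tp x x.length) (bt true) (bt true) .stay .stay .stay := ha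
    rw [ha', act_f3, show 2 * x.length + 5 + 3 * y.length + 1 =
      2 * x.length + 6 + 3 * y.length by ring]
    exact Fm.g1 y hy
  | g1 y hy =>
    rw [s1 rfl, show 2 * x.length + 6 + 3 * y.length + 1 = 2 * x.length + 7 + 3 * y.length by ring]
    by_cases h1 : encH x y true ∈ A
    · rw [cg_ask_yes (by rw [← encH_eq]; exact h1)]
      exact Fm.g2 y hy h1
    · rw [cg_ask_no (by rw [← encH_eq]; exact h1)]
      exact Fm.g3 y hy
  | g2 y hy h =>
    obtain ⟨a, ha, rfl⟩ := s0 (by simp [cg_state, Fin.ext_iff])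
    have ha' : a = act3 4 (tp x x.length) (tp (pre x ++ y ++ [true]) (pre x ++ y).length)
      (tp [true] 0) .stay .stay .stay := ha
    rw [ha', act_g2, show 2 * x.length + 7 + 3 * y.length + 1 =
      2 * x.length + 8 + 3 * y.length by ring]
    exact Fm.h4 y hy h
  | g3 y hy =>
    obtain ⟨a, ha, rfl⟩ := s0 (by simp [cg_state, Fin.ext_iff])
    have ha' : a = act3 5 (tp x x.length) (tp (pre x ++ y ++ [true]) (pre x ++ y).length)
      (tp [true] 0) .stay .stay .stay := ha
    rw [ha', act_g3, show 2 * x.length + 7 + 3 * y.length + 1 =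
      2 * x.length + 8 + 3 * y.length by ring]
    exact Fm.h5 y hy
  | h4 y hy h => exact absurd rfl s4
  | h5 y hy => exact absurd rfl s5

theorem reach_Fm (hclk : ∀ y : List Bool, encH x y false ∈ A ↔ y.length < x.length ^ 2)
    (m : ℕ) (c : Cfg 0 0 4) (h : MR.Reach A x m c) : Fm A x m c := by
  induction m generalizing c with
  | zero =>
    have h' : c = Cfg.init 0 0 4 x := h
    rw [h', init_eq]
    exact Fm.f0
  | succ m ih =>
    obtain ⟨c', h1, h2⟩ := h
    exact (ih c' h1).step hclk h2

/-- a step which is not a query -/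
theorem SR.of {c c' : Cfg 0 0 4} (h4 : c.state ≠ 4) (h5 : c.state ≠ 5) (h1 : c.state ≠ 1)
    {a : Action 0 0 4} (ha : a ∈ dR c.state c.read) (h : c.act a = c') : SR A c c' :=
  ⟨h4, h5, fun h => absurd h h1, fun _ => ⟨a, ha, h.symm⟩⟩

theorem SR.ask {c c' : Cfg 0 0 4} (h1 : c.state = 1) (h : c.ask A = c') : SR A c c' :=
  ⟨by rw [h1]; simp [Fin.ext_iff], by rw [h1]; simp [Fin.ext_iff], fun _ => h.symm,
    fun h2 => absurd h1 h2⟩

theorem Reach.step {M : NTM} {m : ℕ} {c c' : Cfg M.k M.g M.n} (h : M.Reach A x m c)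
    (h' : M.Step A c c') : M.Reach A x (m + 1) c' := ⟨c, h, h'⟩

theorem reach_copy (i : ℕ) (hi : i ≤ x.length) : MR.Reach A x (1 + 2 * i)
    (cg (n := 4) 6 x i (true :: cd (x.take i)) (true :: cd (x.take i)).length []) := by
  induction i with
  | zero =>
    refine ⟨cg (n := 4) 0 x 0 [] 0 [], ?_, ?_⟩
    · exact (init_eq (n := 4) x).symm
    · exact SR.of (by simp [cg_state, Fin.ext_iff]) (by simp [cg_state, Fin.ext_iff])
        (by simp [cg_state]) (a := act3 6 (tp x 0) (bt true) (tp [] 0) .stay .right .stay) rfl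
        (act_f0 x)
  | succ i ih =>
    have h1 : MR.Reach A x (1 + 2 * i + 1) (cg (n := 4) 7 x i (true :: cd (x.take i) ++ [x[i]])
        (true :: cd (x.take i) ++ [x[i]]).length []) :=
      Reach.step (ih (by omega)) (SR.of (by simp [cg_state, Fin.ext_iff])
        (by simp [cg_state, Fin.ext_iff]) (by simp [cg_state, Fin.ext_iff]) (a := r6 _) rfl
        (act_f6 x (by omega)))
    exact Reach.step h1 (SR.of (by simp [cg_state, Fin.ext_iff])
        (by simp [cg_state, Fin.ext_iff]) (by simp [cg_state, Fin.ext_iff])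
        (a := act3 6 (tp x i) (bt false) (tp [] 0) .right .right .stay) rfl
        (act_f7 x (by omega)))

theorem reach_guess (hclk : ∀ y : List Bool, encH x y false ∈ A ↔ y.length < x.length ^ 2)
    (y : List Bool) (hy : y.length ≤ x.length ^ 2) : ∃ m, MR.Reach A x m
    (cg (n := 4) 9 x x.length (pre x ++ y) (pre x ++ y).length []) := by
  induction y using List.reverseRecOn with
  | nil =>
    have h1 := reach_copy (A := A) (x := x) x.length le_rfl
    rw [List.take_length] at h1
    have h2 : MR.Reach A x (1 + 2 * x.length + 1) (cg (n := 4) 8 x x.length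
        (true :: cd x ++ [true]) (true :: cd x ++ [true]).length []) :=
      Reach.step h1 (SR.of (by simp [cg_state, Fin.ext_iff])
        (by simp [cg_state, Fin.ext_iff]) (by simp [cg_state, Fin.ext_iff]) (a := r6 _) rfl
        (act_f6' x))
    exact ⟨_, Reach.step h2 (SR.of (by simp [cg_state, Fin.ext_iff])
        (by simp [cg_state, Fin.ext_iff]) (by simp [cg_state, Fin.ext_iff])
        (a := act3 9 (tp x x.length) (bt true) (tp [] 0) .stay .right .stay) rfl
        (act_f8 x))⟩
  | append_singleton y b ih =>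
    have hy' : y.length < x.length ^ 2 := by simp at hy; omega
    obtain ⟨m, h1⟩ := ih hy'.le
    have h2 : MR.Reach A x (m + 1) (cg (n := 4) 1 x x.length (pre x ++ y ++ [false])
        (pre x ++ y).length []) :=
      Reach.step h1 (SR.of (by simp [cg_state, Fin.ext_iff])
        (by simp [cg_state, Fin.ext_iff]) (by simp [cg_state, Fin.ext_iff])
        (a := act3 1 (tp x x.length) (bt false) (tp [] 0) .stay .stay .stay) rfl
        (act_f9 x y))
    have h3 : MR.Reach A x (m + 1 + 1) (cg (n := 4) 2 x x.length (pre x ++ y ++ [false])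
        (pre x ++ y).length []) :=
      Reach.step h2 (SR.ask rfl (cg_ask_yes (by rw [← encH_eq]; exact (hclk y).2 hy')))
    refine ⟨_, Reach.step h3 (SR.of (by simp [cg_state, Fin.ext_iff])
        (by simp [cg_state, Fin.ext_iff]) (by simp [cg_state, Fin.ext_iff])
        (a := act3 9 (tp x x.length) (bt b) (tp [] 0) .stay .right .stay) ?_
        (act_f2 x y b))⟩
    cases b
    · exact Or.inl rfl
    · exact Or.inr rfl

theorem MR_accepts (hclk : ∀ y : List Bool, encH x y false ∈ A ↔ y.length < x.length ^ 2)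
    {y : List Bool} (hy : y.length = x.length ^ 2) (h : encH x y true ∈ A) : MR.Accepts A x := by
  obtain ⟨m, h1⟩ := reach_guess hclk y hy.le
  have h2 : MR.Reach A x (m + 1) (cg (n := 4) 1 x x.length (pre x ++ y ++ [false])
      (pre x ++ y).length []) :=
    Reach.step h1 (SR.of (by simp [cg_state, Fin.ext_iff])
      (by simp [cg_state, Fin.ext_iff]) (by simp [cg_state, Fin.ext_iff])
      (a := act3 1 (tp x x.length) (bt false) (tp [] 0) .stay .stay .stay) rfl
      (act_f9 x y))
  have h3 : MR.Reach A x (m + 1 + 1) (cg (n := 4) 3 x x.length (pre x ++ y ++ [false])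
      (pre x ++ y).length []) :=
    Reach.step h2 (SR.ask rfl (cg_ask_no (by
      rw [← encH_eq]; exact fun h2 => absurd ((hclk y).1 h2) (by omega))))
  have h4 : MR.Reach A x (m + 1 + 1 + 1) (cg (n := 4) 1 x x.length (pre x ++ y ++ [true])
      (pre x ++ y).length [true]) :=
    Reach.step h3 (SR.of (by simp [cg_state, Fin.ext_iff])
      (by simp [cg_state, Fin.ext_iff]) (by simp [cg_state, Fin.ext_iff])
      (a := act3 1 (tp x x.length) (bt true) (bt true) .stay .stay .stay) rfl
      (act_f3 x y))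
  have h5 : MR.Reach A x (m + 1 + 1 + 1 + 1) (cg (n := 4) 2 x x.length (pre x ++ y ++ [true])
      (pre x ++ y).length [true]) :=
    Reach.step h4 (SR.ask rfl (cg_ask_yes (by rw [← encH_eq]; exact h)))
  have h6 : MR.Reach A x (m + 1 + 1 + 1 + 1 + 1) (cg (n := 4) 4 x x.length
      (pre x ++ y ++ [true]) (pre x ++ y).length [true]) :=
    Reach.step h5 (SR.of (by simp [cg_state, Fin.ext_iff])
      (by simp [cg_state, Fin.ext_iff]) (by simp [cg_state, Fin.ext_iff])
      (a := act3 4 (tp x x.length) (tp (pre x ++ y ++ [true]) (pre x ++ y).length) (tp [true] 0)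
        .stay .stay .stay) rfl (act_g2 x y 2))
  exact ⟨_, _, h6, rfl⟩

end steps

/-- the hidden language -/
def RR (ω : Om) : Set (List Bool) := {x | Rb ω x = true}

theorem chi_RR (ω : Om) : chi (RR ω) = fun m => ω (m, 0) := by
  funext m
  simp only [chi, RR, Set.mem_ofPred_eq, Rb, idx_str]
  cases ω (m, 0) <;> simp

theorem length_wit (ω : Om) (x : List Bool) : (wit ω x).length = x.length ^ 2 := by simp [wit]

/-- The hidden language is in `NP` relative to the oracle. -/
theorem RR_mem_NP (ω : Om) : RR ω ∈ NP (Or ω) := by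
  have hclk : ∀ x y : List Bool, encH x y false ∈ Or ω ↔ y.length < x.length ^ 2 := by
    intro x y
    rw [mem_Or, mem_gen_clk (kind_clk x y)]
  have hhid : ∀ x y : List Bool, encH x y true ∈ Or ω ↔ Hid ω x y := by
    intro x y
    rw [mem_Or, mem_gen_hid (kind_hid x y)]
  refine ⟨MR, 3 * Polynomial.X ^ 2 + 2 * Polynomial.X + 8, fun x m c h => ?_, fun x => ?_⟩
  · have h1 := (reach_Fm (hclk x) m c h).bound
    simpa using h1
  · constructor
    · intro hx
      exact MR_accepts (hclk x) (length_wit ω x) ((hhid x _).2 ⟨hx, rfl⟩)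
    · rintro ⟨m, c, h1, h2⟩
      obtain ⟨y, hy⟩ := (reach_Fm (hclk x) m c h1).accept h2
      exact ((hhid x y).1 hy).1

end Pool.Agent.Helper76.Dim
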