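import Pool.Agent.Helper76.Dim.Defs

set_option autoImplicit false

namespace Pool.Agent.Helper76.Dim

/-- the number of a string in the standard order -/
def idx (x : List Bool) : ℕ := x.foldl (fun a b => 2 * a + 1 + b.toNat) 0

@[simp] theorem idx_nil : idx [] = 0 := rfl

theorem idx_append (x : List Bool) (b : Bool) : idx (x ++ [b]) = 2 * idx x + 1 + b.toNat := by
  simp [idx]

theorem str_zero : str 0 = [] := by rw [str]

theorem str_succ (m : ℕ) : str (m + 1) = str (m / 2) ++ [decide (m % 2 = 1)] := by rw [str]

theorem str_step (a : ℕ) (b : Bool) : str (2 * a + 1 + b.toNat) = str a ++ [b] := by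
  cases b
  · simp only [Bool.toNat_false, add_zero]
    rw [str_succ]
    have h1 : 2 * a / 2 = a := by omega
    have h2 : 2 * a % 2 = 0 := by omega
    rw [h1, h2]
    simp
  · simp only [Bool.toNat_true]
    rw [str_succ]
    have h1 : (2 * a + 1) / 2 = a := by omega
    have h2 : (2 * a + 1) % 2 = 1 := by omega
    rw [h1, h2]
    simp

theorem str_idx (x : List Bool) : str (idx x) = x := by
  induction x using List.reverseRecOn with
  | nil => exact str_zero
  | append_singleton x b ih => rw [idx_append, str_step, ih]

theorem idx_str (m : ℕ) : idx (str m) = m := by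
  induction m using Nat.strong_induction_on with
  | _ m ih =>
    cases m with
    | zero => rw [str_zero]; rfl
    | succ m =>
      rw [str_succ, idx_append, ih _ (by omega)]
      rcases Nat.mod_two_eq_zero_or_one m with h | h
      · simp [h]; omega
      · simp [h]; omega

theorem length_str_le (m : ℕ) : 2 ^ (str m).length ≤ m + 1 ∧ m + 1 < 2 ^ ((str m).length + 1) := by
  induction m using Nat.strong_induction_on with
  | _ m ih =>
    cases m with
    | zero => rw [str_zero]; simp
    | succ m =>
      have h := ih (m / 2) (by omega)
      rw [str_succ, List.length_append, List.length_singleton, pow_succ, pow_succ 2 (_ + 1)]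
      omega

theorem length_str_eq {m t : ℕ} (h1 : 2 ^ t ≤ m + 1) (h2 : m + 1 < 2 ^ (t + 1)) :
    (str m).length = t := by
  have h := length_str_le m
  have h3 : t < (str m).length + 1 := (Nat.pow_lt_pow_iff_right (by norm_num : 1 < 2)).1
    (h1.trans_lt h.2)
  have h4 : (str m).length < t + 1 := (Nat.pow_lt_pow_iff_right (by norm_num : 1 < 2)).1
    (h.1.trans_lt h2)
  omega

theorem idx_lt (x : List Bool) : idx x + 1 < 2 ^ (x.length + 1) := by
  have h := (length_str_le (idx x)).2
  rwa [str_idx] at h

theorem le_idx (x : List Bool) : 2 ^ x.length ≤ idx x + 1 := by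
  have h := (length_str_le (idx x)).1
  rwa [str_idx] at h

theorem idx_injective : Function.Injective idx := fun x y h => by
  rw [← str_idx x, ← str_idx y, h]

@[simp] theorem length_initSeg (X : ℕ → Bool) (m : ℕ) : (initSeg X m).length = m := by
  simp [initSeg]

theorem initSeg_succ (X : ℕ → Bool) (m : ℕ) : initSeg X (m + 1) = initSeg X m ++ [X m] := by
  simp [initSeg, List.range_succ]

@[simp] theorem initSeg_zero (X : ℕ → Bool) : initSeg X 0 = [] := rfl

theorem initSeg_add (X : ℕ → Bool) (a b : ℕ) :
    initSeg X (a + b) = initSeg X a ++ (List.range b).map (fun i => X (a + i)) := by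
  induction b with
  | zero => simp
  | succ b ih =>
    rw [← add_assoc, initSeg_succ, ih, List.range_succ, List.map_append, List.append_assoc]
    rfl

theorem drop_take_initSeg (X : ℕ → Bool) {a b m : ℕ} (h : a + b ≤ m) :
    ((initSeg X m).drop a).take b = (List.range b).map (fun i => X (a + i)) := by
  obtain ⟨c, rfl⟩ := Nat.exists_eq_add_of_le h
  rw [initSeg_add, initSeg_add]
  rw [List.append_assoc, List.drop_append_of_le_length (by simp), List.drop_of_length_le (by simp)]
  simp

end Pool.Agent.Helper76.Dim
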