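import Pool.Agent.Helper76.Dim.Str

set_option autoImplicit false

namespace Pool.Agent.Helper76.Dim

variable {k g n : ℕ}

/-- the tape with content `l` -/
def tp (l : List Bool) : ℕ → Sym g := fun j => l[j]?.map Sum.inl

theorem tp_nil : (tp [] : ℕ → Sym g) = fun _ => none := by
  funext j
  simp [tp]

theorem word_le {t : ℕ → Sym g} {m : ℕ} (h : ∀ b : Bool, t m ≠ some (Sum.inl b)) :
    (word t).length ≤ m := by
  rw [word, List.length_map, List.length_range]
  exact Nat.sInf_le h

theorem word_tp (l : List Bool) : word (tp l : ℕ → Sym g) = l := by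
  have h : sInf {j | ∀ b : Bool, (tp l : ℕ → Sym g) j ≠ some (Sum.inl b)} = l.length := by
    apply le_antisymm
    · apply Nat.sInf_le
      intro b
      simp [tp]
    · apply le_csInf
      · exact ⟨l.length, fun b => by simp [tp]⟩
      · intro j hj
        by_contra hlt
        push Not at hlt
        exact hj l[j] (by simp [tp, hlt])
  rw [word, h]
  apply List.ext_getElem
  · simp
  · intro i h1 h2
    simp [tp, bitOf, h2]

theorem update_tp (l : List Bool) (b : Bool) :
    Function.update (tp l : ℕ → Sym g) l.length (some (Sum.inl b)) = tp (l ++ [b]) := by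
  funext j
  by_cases h : j = l.length
  · subst h
    simp [tp]
  · rw [Function.update_of_ne h]
    simp only [tp]
    congr 1
    rcases lt_or_gt_of_ne h with h1 | h1
    · rw [List.getElem?_append_left h1]
    · rw [List.getElem?_eq_none (by omega), List.getElem?_eq_none (by simp; omega)]

theorem update_tp' (l : List Bool) (b b' : Bool) :
    Function.update (tp (l ++ [b]) : ℕ → Sym g) l.length (some (Sum.inl b')) = tp (l ++ [b']) := by
  rw [← update_tp l b, Function.update_idem, update_tp]

theorem update_none (l : List Bool) :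
    Function.update (tp l : ℕ → Sym g) l.length none = tp l := by
  funext j
  by_cases h : j = l.length
  · subst h
    simp [tp]
  · rw [Function.update_of_ne h]

theorem tp_length (l : List Bool) : (tp l : ℕ → Sym g) l.length = none := by simp [tp]

theorem tp_get (l : List Bool) {i : ℕ} (h : i < l.length) :
    (tp l : ℕ → Sym g) i = some (Sum.inl l[i]) := by simp [tp, h]

/-- The query tape is blank from cell `m` on. -/
def Short (m : ℕ) (c : Cfg k g n) : Prop := (∀ j, m ≤ j → c.tape 1 j = none) ∧ c.head 1 ≤ m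

theorem Short.init (x : List Bool) : Short 0 (Cfg.init k g n x) := by
  refine ⟨fun j _ => ?_, le_rfl⟩
  have : (1 : Fin (k + 3)) ≠ 0 := by simp
  simp [Cfg.init, this]

theorem Short.act {m : ℕ} {c : Cfg k g n} (h : Short m c) (a : Action k g n) :
    Short (m + 1) (c.act a) := by
  refine ⟨fun j hj => ?_, ?_⟩
  · show Function.update (c.tape 1) (c.head 1) (a.2 1).1 j = none
    have h2 := h.2
    rw [Function.update_of_ne (by omega)]
    exact h.1 j (by omega)
  · show (a.2 1).2.move (c.head 1) ≤ m + 1
    have h2 := h.2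
    cases (a.2 1).2 <;> simp only [Dir.move] <;> omega

theorem Short.mono {m : ℕ} {c : Cfg k g n} (h : Short m c) : Short (m + 1) c :=
  ⟨fun j hj => h.1 j (by omega), h.2.trans (Nat.le_succ _)⟩

theorem Short.ask {m : ℕ} {c : Cfg k g n} (h : Short m c) (A : Set (List Bool)) :
    Short (m + 1) (c.ask A) := h.mono

theorem Short.word_le {m : ℕ} {c : Cfg k g n} (h : Short m c) : (word (c.tape 1)).length ≤ m :=
  Dim.word_le fun b => by rw [h.1 m le_rfl]; simp

theorem ask_congr {A A' : Set (List Bool)} {c : Cfg k g n}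
    (h : word (c.tape 1) ∈ A ↔ word (c.tape 1) ∈ A') : c.ask A = c.ask A' := by
  by_cases h1 : word (c.tape 1) ∈ A
  · simp only [Cfg.ask, if_pos h1, if_pos (h.1 h1)]
  · simp only [Cfg.ask, if_neg h1, if_neg (fun h2 => h1 (h.2 h2))]

theorem NTM.reach_short (M : NTM) (A : Set (List Bool)) (x : List Bool) (m : ℕ)
    (c : Cfg M.k M.g M.n) (h : M.Reach A x m c) : Short m c := by
  induction m generalizing c with
  | zero => rw [show c = _ from h]; exact Short.init x
  | succ m ih =>
    obtain ⟨c', h1, h2⟩ := h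
    by_cases h3 : c'.state = 1
    · rw [h2.2.2.1 h3]
      exact (ih c' h1).ask A
    · obtain ⟨a, _, h4⟩ := h2.2.2.2 h3
      rw [h4]
      exact (ih c' h1).act a

/-- Computations of at most `T` steps depend only on the strings of length less than `T`. -/
theorem NTM.reach_congr (M : NTM) {A A' : Set (List Bool)} (x : List Bool) {T : ℕ}
    (hA : ∀ z : List Bool, z.length < T → (z ∈ A ↔ z ∈ A')) (m : ℕ) (hm : m ≤ T)
    (c : Cfg M.k M.g M.n) : M.Reach A x m c ↔ M.Reach A' x m c := by
  induction m generalizing c with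
  | zero => exact Iff.rfl
  | succ m ih =>
    have key : ∀ c', M.Reach A x m c' → (M.Step A c' c ↔ M.Step A' c' c) := by
      intro c' h1
      have h2 := (M.reach_short A x m c' h1).word_le
      rw [NTM.Step, NTM.Step, ask_congr (hA _ (by omega))]
    constructor
    · rintro ⟨c', h1, h2⟩
      exact ⟨c', (ih (by omega) c').1 h1, (key c' h1).1 h2⟩
    · rintro ⟨c', h1, h2⟩
      exact ⟨c', (ih (by omega) c').2 h1, (key c' ((ih (by omega) c').2 h1)).2 h2⟩

/-- acceptance within `T` steps -/
def NTM.AccIn (M : NTM) (A : Set (List Bool)) (T : ℕ) (x : List Bool) : Prop :=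
  ∃ m ≤ T, ∃ c, M.Reach A x m c ∧ c.state = 4

theorem NTM.accIn_congr (M : NTM) {A A' : Set (List Bool)} (x : List Bool) {T : ℕ}
    (hA : ∀ z : List Bool, z.length < T → (z ∈ A ↔ z ∈ A')) :
    M.AccIn A T x ↔ M.AccIn A' T x :=
  exists_congr fun m => and_congr_right fun hm => exists_congr fun c =>
    and_congr_left fun _ => M.reach_congr x hA m hm c

theorem NTM.accIn_iff (M : NTM) {A : Set (List Bool)} {x : List Bool} {T : ℕ}
    (h : ∀ m c, M.Reach A x m c → m ≤ T) : M.AccIn A T x ↔ M.Accepts A x := by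
  constructor
  · rintro ⟨m, _, c, h1, h2⟩
    exact ⟨m, c, h1, h2⟩
  · rintro ⟨m, c, h1, h2⟩
    exact ⟨m, h m c h1, c, h1, h2⟩

/-! ### Countability -/

instance : Finite Dir := by
  refine Finite.of_injective (fun d : Dir => (match d with
    | .left => 0
    | .stay => 1
    | .right => 2 : Fin 3)) ?_
  intro a b h
  cases a <;> cases b <;> simp_all

instance : Finite (Action k g n) := inferInstance

instance : Countable NTM := by
  let f : NTM → Σ (k g n : ℕ), St n → (Fin (k + 3) → Sym g) → Set (Action k g n) :=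
    fun M => ⟨M.k, M.g, M.n, M.δ⟩
  refine Function.Injective.countable (f := f) ?_
  rintro ⟨k, g, n, δ⟩ ⟨k', g', n', δ'⟩ h
  simp only [f, Sigma.mk.injEq] at h
  obtain ⟨rfl, h⟩ := h
  simp only [heq_eq_eq, Sigma.mk.injEq] at h
  obtain ⟨rfl, h⟩ := h
  simp only [heq_eq_eq, Sigma.mk.injEq] at h
  obtain ⟨rfl, h⟩ := h
  simp only [heq_eq_eq] at h
  rw [h]

instance : Countable DTM := by
  let f : DTM → Σ (k g n : ℕ), St n → (Fin (k + 3) → Sym g) → Action k g n :=
    fun M => ⟨M.k, M.g, M.n, M.δ⟩
  refine Function.Injective.countable (f := f) ?_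
  rintro ⟨k, g, n, δ⟩ ⟨k', g', n', δ'⟩ h
  simp only [f, Sigma.mk.injEq] at h
  obtain ⟨rfl, h⟩ := h
  simp only [heq_eq_eq, Sigma.mk.injEq] at h
  obtain ⟨rfl, h⟩ := h
  simp only [heq_eq_eq, Sigma.mk.injEq] at h
  obtain ⟨rfl, h⟩ := h
  simp only [heq_eq_eq] at h
  rw [h]

end Pool.Agent.Helper76.Dim
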